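import Pool.Agent.H62.CNZ.ZRB

/-!
# Board `cnz`, row ZRA: reduced degree, read off the derivative
-/

set_option autoImplicit false

namespace Pool.CND

open Finset

/-- degree and derivative of `C w + ∑_{j ≤ J} β_j X ^ (p ^ j)` -/
theorem zra_W (p J : ℕ) (k : Type) [Field k] [CharP k p] (β : ℕ → k) (w : k) (hp : p.Prime)
    (hJ : β J ≠ 0) :
    (Polynomial.C w + ∑ j ∈ range (J + 1), Polynomial.C (β j) * Polynomial.X ^ (p ^ j) :
      Polynomial k).natDegree = p ^ J ∧
    Polynomial.derivative (Polynomial.C w +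
      ∑ j ∈ range (J + 1), Polynomial.C (β j) * Polynomial.X ^ (p ^ j) : Polynomial k) =
      Polynomial.C (β 0) := by
  have hPJ : 1 ≤ p ^ J := Nat.one_le_pow _ _ hp.pos
  constructor
  · apply le_antisymm
    · refine (Polynomial.natDegree_add_le _ _).trans (max_le ?_ ?_)
      · rw [Polynomial.natDegree_C]
        omega
      · refine Polynomial.natDegree_sum_le_of_forall_le _ _ (fun j hj => ?_)
        refine (Polynomial.natDegree_C_mul_X_pow_le _ _).trans ?_
        exact Nat.pow_le_pow_right hp.pos (Nat.lt_succ_iff.1 (Finset.mem_range.1 hj))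
    · apply Polynomial.le_natDegree_of_ne_zero
      rw [Polynomial.coeff_add, Polynomial.coeff_C_ne_zero (by omega), zero_add,
        Polynomial.finset_sum_coeff, Finset.sum_range_succ, Finset.sum_eq_zero, zero_add,
        Polynomial.coeff_C_mul_X_pow, if_pos rfl]
      · exact hJ
      · intro j hj
        rw [Polynomial.coeff_C_mul_X_pow, if_neg]
        intro h
        have := Nat.pow_right_injective hp.two_le h
        have := Finset.mem_range.1 hj
        omega
  · rw [Polynomial.derivative_add, Polynomial.derivative_C, zero_add, Polynomial.derivative_sum,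
      Finset.sum_range_succ']
    have h0 : ∀ j ∈ range J, Polynomial.derivative
        (Polynomial.C (β (j + 1)) * Polynomial.X ^ (p ^ (j + 1)) : Polynomial k) = 0 := by
      intro j _
      rw [Polynomial.derivative_C_mul, Polynomial.derivative_X_pow]
      have : ((p ^ (j + 1) : ℕ) : k) = 0 := by
        rw [Nat.cast_pow, CharP.cast_eq_zero k p, zero_pow (by omega)]
      rw [this, Polynomial.C_0, zero_mul, mul_zero]
    rw [Finset.sum_eq_zero h0, zero_add, pow_zero, pow_one, Polynomial.derivative_C_mul,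
      Polynomial.derivative_X, mul_one]

theorem zra_thm : S_ZRA := by
  intro p d m J k _ _ _ e β w A hp hed he0 hA hJd hm hpm hβJ hβ0
  have hpp := hp.two_le
  obtain ⟨hmon, hdeg, hder⟩ := XT1.addpol p d k e hp hed
  rw [← hA] at hmon hdeg hder
  obtain ⟨hWdeg, hWder⟩ := zra_W p J k β w hp hβJ
  set W : Polynomial k := Polynomial.C w +
    ∑ j ∈ range (J + 1), Polynomial.C (β j) * Polynomial.X ^ (p ^ j) with hWdef
  have hPd : 1 ≤ p ^ d := Nat.one_le_pow _ _ (by omega)
  have hPJ : 1 ≤ p ^ J := Nat.one_le_pow _ _ (by omega)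
  have hPJd : p ^ J ≤ p ^ d := Nat.pow_le_pow_right hp.pos hJd.le
  have hmk : (m : k) ≠ 0 := fun h0 => hpm ((CharP.cast_eq_zero_iff k p m).1 h0)
  have hlam : β 0 + (((m + 1 : ℕ) : k) * e 0) * (-(β 0) / (((m + 1 : ℕ) : k) * e 0)) = 0 := by
    rcases hβ0 with h | ⟨-, h⟩
    · rw [h, neg_zero, zero_div, mul_zero, zero_add]
    · have h1 : ((m + 1 : ℕ) : k) ≠ 0 := fun h0 => h ((CharP.cast_eq_zero_iff k p (m + 1)).1 h0)
      rw [mul_div_cancel₀ _ (mul_ne_zero h1 he0)]
      ring
  set lam : k := -(β 0) / (((m + 1 : ℕ) : k) * e 0) with hlamdef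
  have hW0 : W ≠ 0 := by
    intro h0
    rw [h0, Polynomial.natDegree_zero] at hWdeg
    omega
  obtain ⟨n, rfl⟩ : ∃ n, m = n + 1 := ⟨m - 1, by omega⟩
  have hn1 : n + 1 - 1 = n := by omega
  rw [hn1]
  have hE : p ^ d * n + p ^ J + 1 = (p ^ d * n + p ^ J) + 1 := rfl
  rw [hE]
  refine zr_core p k _ (p ^ d * n + p ^ J) hp (by omega) ?_ ?_
  · have h1 : Polynomial.derivative (W * A ^ (n + 1) + Polynomial.C lam * A ^ (n + 1 + 1)) =
        Polynomial.C (((n + 1 : ℕ) : k) * e 0) * (W * A ^ n) +
          Polynomial.C (β 0 + (((n + 1 + 1 : ℕ) : k) * e 0) * lam) * A ^ (n + 1) := by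
      rw [Polynomial.derivative_add, Polynomial.derivative_mul, Polynomial.derivative_C_mul,
        Polynomial.derivative_pow, Polynomial.derivative_pow, hWder, hder]
      have e1 : n + 1 - 1 = n := by omega
      have e2 : n + 1 + 1 - 1 = n + 1 := by omega
      rw [e1, e2]
      simp only [Polynomial.C_add, Polynomial.C_mul]
      ring
    rw [h1, hlam, Polynomial.C_0, zero_mul, add_zero,
      Polynomial.natDegree_C_mul (mul_ne_zero hmk he0),
      Polynomial.natDegree_mul hW0 (hmon.pow n).ne_zero, hWdeg, hmon.natDegree_pow, hdeg]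
    ring
  · have hA1 : (A ^ (n + 1)).natDegree = (n + 1) * p ^ d := by rw [hmon.natDegree_pow, hdeg]
    have hA2 : (A ^ (n + 1 + 1)).natDegree = (n + 1 + 1) * p ^ d := by
      rw [hmon.natDegree_pow, hdeg]
    have h2 : (W * A ^ (n + 1) + Polynomial.C lam * A ^ (n + 1 + 1)).natDegree ≤
        (n + 2) * p ^ d := by
      refine (Polynomial.natDegree_add_le _ _).trans (max_le ?_ ?_)
      · refine (Polynomial.natDegree_mul_le).trans ?_
        rw [hWdeg, hA1]
        nlinarith
      · refine (Polynomial.natDegree_C_mul_le _ _).trans ?_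
        rw [hA2]
    refine h2.trans ?_
    have h3 : (n + 2) * p ^ d ≤ 2 * (p ^ d * n + p ^ J) := by nlinarith
    have h4 : 2 * (p ^ d * n + p ^ J) ≤ p * (p ^ d * n + p ^ J) := Nat.mul_le_mul_right _ hpp
    omega

end Pool.CND
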