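import Pool.Agent.H37.CNZ.Stmts
import Pool.Agent.H63.CNX.XRD
import Pool.Agent.H99.CNX.XT1

/-!
# Board `cnz`, rows ZRA and ZRB: reduced degrees, read off the derivative
-/

set_option autoImplicit false

namespace Pool.CND

open Finset

/-- a polynomial whose derivative has degree `E` has reduced degree `E + 1`, if its degree is at most
`p * E` -/
theorem zr_core (p : ℕ) (k : Type) [Field k] [IsAlgClosed k] [CharP k p] (f : Polynomial k) (E : ℕ)
    (hp : p.Prime) (hE : 1 ≤ E) (hf' : (Polynomial.derivative f).natDegree = E)
    (hf : f.natDegree ≤ p * E) :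
    ∃ r : Polynomial k, (f - (r ^ p - r)).natDegree = E + 1 := by
  have hpp := hp.two_le
  have hpC : (Polynomial.C ((p : ℕ) : k) : Polynomial k) = 0 := by
    rw [CharP.cast_eq_zero k p, Polynomial.C_0]
  have hder : ∀ r : Polynomial k, Polynomial.derivative (r ^ p - r) = - Polynomial.derivative r := by
    intro r
    rw [Polynomial.derivative_sub, Polynomial.derivative_pow, hpC, zero_mul, zero_mul, zero_sub]
  have hdeg : ∀ r : Polynomial k, 1 ≤ r.natDegree → (r ^ p - r).natDegree = p * r.natDegree := by
    intro r h1
    have : (r ^ p - r).natDegree = (r ^ p).natDegree := by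
      apply Polynomial.natDegree_sub_eq_left_of_natDegree_lt
      rw [Polynomial.natDegree_pow]
      nlinarith
    rw [this, Polynomial.natDegree_pow]
  rcases xrd_thm p k f hp with ⟨r, hr⟩ | ⟨D, r, hD, hpD, hr⟩
  · exfalso
    have h1 : (Polynomial.derivative r).natDegree = E := by
      rw [← hf', hr, hder r, Polynomial.natDegree_neg]
    have h2 := Polynomial.natDegree_derivative_le r
    have h3 : E + 1 ≤ r.natDegree := by omega
    have h4 := hdeg r (by omega)
    rw [← hr] at h4
    have h5 : p * (E + 1) ≤ p * r.natDegree := Nat.mul_le_mul_left _ h3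
    have h6 : p * E + p = p * (E + 1) := by ring
    omega
  · refine ⟨r, ?_⟩
    have hrE : r.natDegree ≤ E := by
      by_contra hcon
      push Not at hcon
      have h4 := hdeg r (by omega)
      have h5 : p * (E + 1) ≤ p * r.natDegree := Nat.mul_le_mul_left _ hcon
      have h6 : p * E + p = p * (E + 1) := by ring
      have h7 : (f - (r ^ p - r)).natDegree = (r ^ p - r).natDegree := by
        apply Polynomial.natDegree_sub_eq_right_of_natDegree_lt
        omega
      rw [hr, h4] at h7
      exact hpD ⟨_, h7⟩
    have h8 : (Polynomial.derivative (f - (r ^ p - r))).natDegree = E := by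
      rw [Polynomial.derivative_sub, hder r, sub_neg_eq_add]
      rw [Polynomial.natDegree_add_eq_left_of_natDegree_lt, hf']
      have h2 := Polynomial.natDegree_derivative_le r
      omega
    have h9 : (Polynomial.derivative (f - (r ^ p - r))).natDegree = D - 1 := by
      apply le_antisymm
      · rw [← hr]
        exact Polynomial.natDegree_derivative_le _
      · apply Polynomial.le_natDegree_of_ne_zero
        rw [Polynomial.coeff_derivative]
        have h10 : D - 1 + 1 = D := by omega
        have h11 : ((D - 1 : ℕ) : k) + 1 = (D : k) := by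
          rw [← Nat.cast_add_one, h10]
        rw [h10, h11]
        apply mul_ne_zero
        · rw [← hr]
          have h12 : f - (r ^ p - r) ≠ 0 := by
            intro h0
            rw [h0, Polynomial.natDegree_zero] at hr
            omega
          exact Polynomial.leadingCoeff_ne_zero.2 h12
        · exact fun h0 => hpD ((CharP.cast_eq_zero_iff k p D).1 h0)
    rw [hr]
    omega

theorem zrb_thm : S_ZRB := by
  intro p d m k _ _ _ e w A hp hed he0 hA hd hm hpm hw
  have hpp := hp.two_le
  obtain ⟨hmon, hdeg, hder⟩ := XT1.addpol p d k e hp hed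
  rw [← hA] at hmon hdeg hder
  have hPd : 1 ≤ p ^ d := Nat.one_le_pow _ _ (by omega)
  have hmk : (m : k) ≠ 0 := fun h0 => hpm ((CharP.cast_eq_zero_iff k p m).1 h0)
  refine zr_core p k _ (p ^ d * (m - 1)) hp (Nat.mul_pos hPd (by omega)) ?_ ?_
  · rw [Polynomial.derivative_C_mul, Polynomial.derivative_pow, hder]
    rw [Polynomial.natDegree_C_mul hw, Polynomial.natDegree_mul_C he0,
      Polynomial.natDegree_C_mul hmk, hmon.natDegree_pow, hdeg, mul_comm]
  · refine (Polynomial.natDegree_C_mul_le _ _).trans ?_
    rw [hmon.natDegree_pow, hdeg]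
    obtain ⟨n, rfl⟩ : ∃ n, m = n + 2 := ⟨m - 2, by omega⟩
    have h1 : n + 2 - 1 = n + 1 := by omega
    rw [h1]
    have h2 : (n + 2) * p ^ d ≤ 2 * (p ^ d * (n + 1)) := by nlinarith
    have h3 : 2 * (p ^ d * (n + 1)) ≤ p * (p ^ d * (n + 1)) := Nat.mul_le_mul_right _ hpp
    omega

end Pool.CND
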